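import Pool.Agent.W463.H10.Fixed

/-!
# Solvability over `ℚ` is `NP`-hard for a fixed number of variables and a fixed degree

A polynomial is given by the list of its terms: a term is an integer coefficient (in binary) and a
list of indices of variables. It is `NP`-hard to decide whether an equation of degree at most
four in nine variables has a rational solution, and also for equations of degree at most `32` in
five variables. (In two variables this is the problem of rational points on curves.)

The proofs are `hard_nine` and `hard_five` in the starting file `Pool/Agent/W463/H10/Fixed.lean`,
which had not been handed in. They use points on the elliptic curve `y² = x³ - 2 x² + 65 x` of rank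
one with conditions at the primes which are inert in `ℚ(√2)`.
-/

namespace Pool.Agent.Results.MP_28f2cb_lc.FixedDimension

open Pool.Agent.NPC Pool.Agent.W463.H10

/-- **Fixed dimension.** The following problems are `NP`-hard: given a polynomial with integer
coefficients of degree at most `4` in `9` variables, does it have a rational zero; the same for
degree at most `32` and `5` variables. -/
theorem result :
    NPHardP (fun p : List (ℤ × List ℕ) => Bd 4 9 p ∧ RatZero p) ∧
    NPHardP (fun p : List (ℤ × List ℕ) => Bd 32 5 p ∧ RatZero p) :=
  ⟨hard_nine, hard_five⟩

end Pool.Agent.Results.MP_28f2cb_lc.FixedDimension
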