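import Pool.Agent.H528R3.Huge

/-!
# Quartic equations of linear size all of whose rational solutions are quadruply exponential

If the integers were existentially definable in `ℚ`, the smallest rational solutions of equations
of degree four could not be bounded by a computable function of the size of the equation. No
lower bound of this kind is known; here we show that they are sometimes quadruply exponential in
the size: there are polynomials `p` of degree at most four in `N = C (n + 1)` variables whose
coefficients have absolute values with sum at most `N`, which have rational zeros, but all
rational zeros of which have a coordinate of height at least `2 ^ (2 ^ (2 ^ (2 ^ n)))`.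

(For real solutions the smallest ones are doubly exponential in the number of variables at most.)

The proof is `huge_solutions` in the starting library `Pool/Agent/H528R3`, which had not been handed
in. In outline: on the elliptic curve `Y² = Z³ - 2 Z² + 65 Z` of rank one there is an existentially
definable relation between multiples `M P₀` and `M' P₀` of `P₀ = (5, 20)` which forces `M'` to be
divisible by the primes of an exponentially larger set than `M`; iterating it `n` times makes `M`
triply exponential, and the height of `M P₀` grows at least linearly in `M`.
-/

namespace Pool.Agent.Results.MP_28f2cb_lc.HugeRationalSolutions

open MvPolynomial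

/-- **Huge rational solutions.** There is a constant `C` such that for every `n` there is a
polynomial `p` of degree at most `4` in `C (n + 1)` variables with integer coefficients whose
absolute values sum to at most `C (n + 1)`, such that `p` has a rational zero, and every rational
zero of `p` has a coordinate of height at least `2 ^ (2 ^ (2 ^ (2 ^ n)))`. -/
theorem result : ∃ C : ℕ, ∀ n : ℕ, ∃ p : MvPolynomial (Fin (C * (n + 1))) ℤ,
    p.totalDegree ≤ 4 ∧ ∑ m ∈ p.support, |p.coeff m| ≤ C * (n + 1) ∧
    (∃ x : Fin (C * (n + 1)) → ℚ, aeval x p = 0) ∧
    ∀ x : Fin (C * (n + 1)) → ℚ, aeval x p = 0 →
      ∃ i, 2 ^ (2 ^ (2 ^ (2 ^ n))) ≤ max (x i).num.natAbs (x i).den :=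
  Pool.Agent.H528R3.huge_solutions

end Pool.Agent.Results.MP_28f2cb_lc.HugeRationalSolutions
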