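import Pool.Agent.H528R2.Final
import Pool.Agent.H528R2.Hier

/-!
# Solvability of one quartic equation over `ℚ` is `NEXP`-hard

Hilbert's tenth problem over `ℚ` would be undecidable if the integers were existentially definable
in `ℚ`; the best lower bounds that are known for its complexity come from finite fragments of
arithmetic that can be defined existentially. Here: for every language `L` in `NEXP` there is a
polynomial-time computable function which maps a word `w` to a polynomial of degree at most four with
integer coefficients (given as an expression) which has a rational zero if and only if `w` is in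
`L`. By the nondeterministic time hierarchy theorem (proved in
`Pool/Agent/H528R2/Hier.lean`) solvability of quartic equations over `ℚ` is neither in `NP` nor in
`coNP`, and in particular not in `P`, without any assumption.

The proof is contained in the starting library `Pool/Agent/H528R2` (and `H573R2`), which had not
been handed in. In outline: for the elliptic curve `Y² = Z³ - 2 Z² + 65 Z` of rank one with the point
`P₀ = (5, 20)`, the orders of the denominators of `n P₀` at the primes which are inert in `ℚ(√2)`
can be compared existentially, which allows to write exponentially many bits into the multiples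
`n P₀` by chains of `O(m)` elementary conditions and to check dependency quantified Boolean formulas.
-/

namespace Pool.Agent.Results.MP_28f2cb_lc.NexpHardQuartics

open Pool.Agent Pool.Agent.NPC Pool.Agent.NPC.H573Q Pool.Agent.NPC.ER Pool.Agent.NPC.H612
open Pool.Agent.H528R2

/-- The formula `φ` is an equation `t = 0`, where the polynomial `t` with integer coefficients has
degree at most four and has a rational zero. -/
def QuarticZero (φ : QFm) : Prop :=
  ∃ t : ER.Tm, φ = .eq t .zero ∧ tdeg t ≤ 4 ∧ ∃ x : ℕ → ℚ, evalQ x t = 0

theorem hard : NEXPHard (lang QuarticZero) := by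
  intro L hL
  obtain ⟨t, ht, hpt, hw⟩ := quartic_hard hL
  refine ⟨fun w => bits (QFm.eq (t w) .zero), hpt, fun w => ?_⟩
  constructor
  · intro h
    obtain ⟨x, hx⟩ := (hw w).1 h
    exact ⟨_, rfl, t w, rfl, ht w, x, hx⟩
  · rintro ⟨φ, hφ, t', rfl, -, x, hx⟩
    have h1 : QFm.eq t' .zero = QFm.eq (t w) .zero := bits_injective hφ
    rw [QFm.eq.injEq] at h1
    rw [h1.1] at hx
    exact (hw w).2 ⟨x, hx⟩

/-- **Solvability of quartic equations over `ℚ` is `NEXP`-hard.** For every language `L` in `NEXP`
there are polynomials `t w` with integer coefficients and of degree at most four, computed in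
polynomial time from the word `w`, such that `w` is in `L` if and only if `t w` has a zero in `ℚ`. So
the set of the equations of degree at most four which are solvable in `ℚ` is `NEXP`-hard, and it is
not in `NP`, not in `coNP` and not in `P`. -/
theorem result :
    (∀ L : Set (List Bool), InNEXP L → ∃ t : List Bool → ER.Tm, (∀ w, tdeg (t w) ≤ 4) ∧
      PolyTime (fun w => bits (QFm.eq (t w) .zero)) ∧
      ∀ w, w ∈ L ↔ ∃ x : ℕ → ℚ, evalQ x (t w) = 0) ∧
    NEXPHard (lang QuarticZero) ∧ ¬ InNP (lang QuarticZero) ∧ ¬ InCoNP (lang QuarticZero) ∧
    ¬ InP (lang QuarticZero) := by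
  refine ⟨fun L hL => ?_, hard, hard.not_inNP, hard.not_inCoNP, hard.not_inP⟩
  obtain ⟨t, ht, hpt, hw⟩ := quartic_hard hL
  exact ⟨t, ht, hpt, fun w => (hw w)⟩

end Pool.Agent.Results.MP_28f2cb_lc.NexpHardQuartics
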