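import Pool.Agent.TH588.UQ.Main

/-!
# Sentences over `ℚ` with one universal quantifier and one quartic equation

By Matiyasevich's theorem `∃ x, F(a, x) = 0` defines all recursively enumerable sets over `ℤ`, and the
problem asks whether this can be transferred to `ℚ`. Here is the transfer with one universal
quantifier, one polynomial `F` of degree at most four, and a wide gap: for each recursively
enumerable set `P` of natural numbers there is a computable function `g` such that
`∀ t ∃ x, F(g a, t, x) = 0` is true over `ℚ` if `a` is not in `P`, and if `a` is in `P` then the `t` for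
which the equation `F(g a, t, x) = 0` has no rational solution `x` are dense in the real line and
include a squarefree natural number.

The proof is `main` in the starting library `Pool/Agent/TH588/UQ`, which had not been handed in.
-/

namespace Pool.Agent.Results.MP_28f2cb_lc.OneUniversalQuantifier

/-- **One universal quantifier.** There is one polynomial `F(s, t, x₁, …, xₙ)` with integer
coefficients of degree at most `4` such that for every recursively enumerable set `P` of natural
numbers there is a computable `g` with: if `a ∉ P` then for all `t ∈ ℚ` the equation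
`F(g a, t, x) = 0` has a solution `x ∈ ℚⁿ`; if `a ∈ P` then it has none for some squarefree natural
number `t` and for some `t` in every interval. -/
theorem result : ∃ (n : ℕ) (F : MvPolynomial (Fin 2 ⊕ Fin n) ℤ), F.totalDegree ≤ 4 ∧
    ∀ P : ℕ → Prop, REPred P → ∃ g : ℕ → ℕ, Computable g ∧ ∀ a : ℕ,
      (¬ P a → ∀ t : ℚ, ∃ x : Fin n → ℚ,
        MvPolynomial.aeval (Sum.elim ![(g a : ℚ), t] x) F = 0) ∧
      (P a → (∃ t : ℕ, Squarefree t ∧ ∀ x : Fin n → ℚ,
          MvPolynomial.aeval (Sum.elim ![(g a : ℚ), (t : ℚ)] x) F ≠ 0) ∧
        ∀ u v : ℚ, u < v → ∃ t : ℚ, u < t ∧ t < v ∧ ∀ x : Fin n → ℚ,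
          MvPolynomial.aeval (Sum.elim ![(g a : ℚ), t] x) F ≠ 0) :=
  Pool.Agent.TH588.UQ.main

end Pool.Agent.Results.MP_28f2cb_lc.OneUniversalQuantifier
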